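import Mathlib
import Pool.Agent.H82.LinSurj

set_option autoImplicit false

namespace Pool.Agent.Results.MP_1f8704_gt.LinearImageAnalytic

open Pool.Agent.H82.CpDefs

theorem result : ∀ (X Y : Type) [TopologicalSpace X] [T35Space X] [TopologicalSpace Y] [T35Space Y]
    (T : C(X, ℝ) →ₗ[ℝ] C(Y, ℝ)), @Continuous _ _ (ptw X) (ptw Y) T → Function.Surjective T →
    (Function.Injective T ∨ Nonempty Y) →
    (∃ π : (ℕ → ℕ) → X, Continuous π ∧ Function.Surjective π) →
    ∃ ρ : (ℕ → ℕ) → Y, Continuous ρ ∧ Function.Surjective ρ := by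
  intro X Y _ _ _ _ T hc hT h ⟨π, h1, h2⟩
  have : Nonempty Y := by
    refine h.elim (fun h => by_contra fun h' => ?_) id
    have := not_nonempty_iff.1 h'
    have h3 : (1 : C(X, ℝ)) = 0 := h (ContinuousMap.ext fun y => isEmptyElim y)
    simpa using DFunLike.congr_fun h3 (π 0)
  exact Pool.Agent.H82.LinSurj.analytic h1 h2 T hc hT

end Pool.Agent.Results.MP_1f8704_gt.LinearImageAnalytic
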